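import Pool.Agent.K1H51.DL.Stm
import Pool.Agent.K1H51.ZL.Asm

set_option autoImplicit false

/-! The local fourth moment of `ζ` (piece L4 of the project DL). -/

namespace K1H48.DL4

open MeasureTheory Set Filter Topology
open Pool.Agent.Y969.GP (ff)
open Pool.Agent.K1H51.ZL
open Pool.Agent.K1H51.DL (S_L4)

noncomputable section

lemma ff_nonneg (u : ℝ) : 0 ≤ ff u := sq_nonneg _

lemma ff_le_Fm (X : ℕ) (m u : ℝ) : ff u ≤ Fm X m 0 u := by
  have h1 : ff u = ‖(ff u : ℂ)‖ := by rw [Complex.norm_real, Real.norm_of_nonneg (ff_nonneg u)]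
  have e : (ff u : ℂ) = Pc X m u + ((ff u : ℂ) - Pc X m u) := by ring
  have h2 : ‖(ff u : ℂ)‖ ≤ ‖Pc X m u‖ + ‖(ff u : ℂ) - Pc X m u‖ := by
    conv_lhs => rw [e]
    exact norm_add_le _ _
  have h3 : 0 ≤ Ds X m 0 u := Ds_nonneg X m le_rfl u
  rw [h1]
  unfold Fm Er
  linarith

lemma exK {ε : ℝ} (hε : 0 < ε) : ∃ K : ℕ, 1 ≤ K ∧ 3 * ep K 1 ≤ ε := by
  obtain ⟨K, hK⟩ := exists_nat_gt (1 / ε)
  have hK0 : (0 : ℝ) < K := lt_trans (by positivity) hK
  have hK1 : 1 ≤ K := by
    by_contra h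
    have : K = 0 := by omega
    rw [this] at hK0
    simp at hK0
  have hK1' : (1 : ℝ) ≤ K := by exact_mod_cast hK1
  refine ⟨K, hK1, ?_⟩
  have e : 3 * ep K 1 = 3 / (1024 * K ^ 2) := by
    unfold ep ex
    push_cast
    field_simp
    ring
  rw [e, div_le_iff₀ (by positivity)]
  rw [div_lt_iff₀ hε] at hK
  have h1 : 1 ≤ K * (ε * K) := by
    calc (1 : ℝ) ≤ ε * K := by linarith
      _ = 1 * (ε * K) := by ring
      _ ≤ K * (ε * K) := mul_le_mul_of_nonneg_right hK1' (by linarith)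
  linarith

theorem t_L4 : S_L4 := by
  intro a b ε ha hab hε
  obtain ⟨K, hK1, hKε⟩ := exK hε
  have hb : 0 < b := by linarith
  obtain ⟨c, hc⟩ : ∃ c : ℝ, c = max b 1 := ⟨_, rfl⟩
  have hcb : b ≤ c := by rw [hc]; exact le_max_left _ _
  have hc1 : 1 ≤ c := by rw [hc]; exact le_max_right _ _
  have hev := msq (K := K) (d := 1) le_rfl hK1 (a / 2) c (by positivity) (by linarith) hc1 0
  obtain ⟨T₀, hT₀⟩ := eventually_atTop.1 hev
  have hep := ep_pos (K := K) (d := 1) le_rfl hK1
  -- the case of large `t`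
  have hlarge : ∀ t : ℝ, max T₀ 1 ≤ t → ∫ α in a..b, ff (α * t) ^ 2 ≤ t ^ ε := by
    intro t ht
    have ht0 : T₀ ≤ t := (le_max_left _ _).trans ht
    have ht1 : 1 ≤ t := (le_max_right _ _).trans ht
    have htp : 0 < t := by linarith
    obtain ⟨z, hz⟩ : ∃ z : ℝ, z = (c * t) ^ (1 + ep K 1) := ⟨_, rfl⟩
    have hz1 : 1 ≤ z := by
      rw [hz]
      exact Real.one_le_rpow (one_le_mul_of_one_le_of_one_le hc1 ht1) (by linarith)
    obtain ⟨-, h⟩ := hT₀ t ht0 ⌈z⌉₊ 0 (by rw [← hz]; exact Nat.le_ceil _)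
      (by rw [← hz]; linarith [Nat.ceil_lt_add_one (by linarith : (0 : ℝ) ≤ z)]) le_rfl (by simp)
    have e1 : ∫ α in a..b, ff (α * t) ^ 2 = t⁻¹ * ∫ u in (a * t)..(b * t), ff u ^ 2 := by
      rw [intervalIntegral.integral_comp_mul_right (fun u => ff u ^ 2) htp.ne']
      rfl
    have hm : 0 < a / 2 * t := by positivity
    have e2 : ∫ u in (a * t)..(b * t), ff u ^ 2 ≤ t * t ^ (3 * ep K 1) := by
      rw [intervalIntegral.integral_of_le (mul_le_mul_of_nonneg_right hab.le htp.le),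
        ← integral_Icc_eq_integral_Ioc]
      refine le_trans ?_ h
      have hcont : Continuous fun u => Fm ⌈z⌉₊ (a / 2 * t) 0 u ^ 2 := (Fm_cont _ hm 0).pow 2
      calc ∫ u in Icc (a * t) (b * t), ff u ^ 2
          ≤ ∫ u in Icc (a * t) (b * t), Fm ⌈z⌉₊ (a / 2 * t) 0 u ^ 2 := by
            apply setIntegral_mono_on
            · exact ((ff_cont'.pow 2).continuousOn).integrableOn_compact isCompact_Icc
            · exact hcont.continuousOn.integrableOn_compact isCompact_Icc
            · exact measurableSet_Icc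
            · intro u _
              exact pow_le_pow_left₀ (ff_nonneg u) (ff_le_Fm _ _ u) 2
        _ ≤ ∫ u in Icc (2 * (a / 2) * t) (c * t), Fm ⌈z⌉₊ (a / 2 * t) 0 u ^ 2 := by
            apply setIntegral_mono_set
            · exact hcont.continuousOn.integrableOn_compact isCompact_Icc
            · exact Eventually.of_forall fun u => sq_nonneg _
            · apply HasSubset.Subset.eventuallyLE
              apply Icc_subset_Icc
              · exact le_of_eq (by ring)
              · exact mul_le_mul_of_nonneg_right hcb htp.le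
    rw [e1]
    calc t⁻¹ * ∫ u in (a * t)..(b * t), ff u ^ 2 ≤ t⁻¹ * (t * t ^ (3 * ep K 1)) :=
          mul_le_mul_of_nonneg_left e2 (by positivity)
      _ = t ^ (3 * ep K 1) := by rw [← mul_assoc, inv_mul_cancel₀ htp.ne', one_mul]
      _ ≤ t ^ ε := Real.rpow_le_rpow_of_exponent_le ht1 hKε
  -- the case of bounded `t`
  obtain ⟨M, hM⟩ := (isCompact_Icc (a := 0) (b := b * max T₀ 1)).exists_bound_of_continuousOn
    (ff_cont'.continuousOn)
  have hM0 : 0 ≤ M := (norm_nonneg _).trans (hM 0 (left_mem_Icc.2 (by positivity)))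
  refine ⟨1 + M ^ 2 * (b - a), by have : 0 ≤ M ^ 2 * (b - a) := mul_nonneg (sq_nonneg M) (by linarith)
                                  linarith, fun t ht => ?_⟩
  have htε : 1 ≤ t ^ ε := Real.one_le_rpow ht hε.le
  have hC0 : 0 ≤ M ^ 2 * (b - a) := mul_nonneg (sq_nonneg M) (by linarith)
  rcases le_or_gt (max T₀ 1) t with hT | hT
  · have h1 := hlarge t hT
    have h2 : 0 ≤ M ^ 2 * (b - a) * t ^ ε := mul_nonneg hC0 (by linarith)
    linarith
  · have h1 : ∫ α in a..b, ff (α * t) ^ 2 ≤ ∫ _α in a..b, M ^ 2 := by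
      apply intervalIntegral.integral_mono_on hab.le
      · exact ((ff_cont'.comp (by fun_prop : Continuous fun α : ℝ => α * t)).pow 2).intervalIntegrable _ _
      · exact continuous_const.intervalIntegrable _ _
      · intro α hα
        have h3 := hM (α * t) ⟨mul_nonneg (by linarith [hα.1]) (by linarith),
          mul_le_mul hα.2 hT.le (by linarith) hb.le⟩
        rw [Real.norm_of_nonneg (ff_nonneg _)] at h3
        exact pow_le_pow_left₀ (ff_nonneg _) h3 2
    rw [intervalIntegral.integral_const, smul_eq_mul] at h1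
    have h2 : M ^ 2 * (b - a) * 1 ≤ M ^ 2 * (b - a) * t ^ ε := mul_le_mul_of_nonneg_left htε hC0
    linarith

end

end K1H48.DL4
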